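import Pool.Agent.Helper23.MV.StC

/-!
# Project MV (MP_b454d1_nt), module EXP (helper89): expansion of `e(na/q)` in primitive characters
-/

set_option autoImplicit false

namespace Pool.Agent.Helper89.MV

open Pool.Agent.Helper23.MV Finset
open Pool.Agent.Helper48.BK (ex)

/-- the primitive character inducing `χ` -/
private noncomputable def pr_EXP {N : ℕ} [NeZero N] (χ : DirichletCharacter ℂ N) : PCh :=
  ⟨χ.conductor, χ.conductor_ne_zero, χ.primitiveCharacter, χ.primitiveCharacter_isPrimitive⟩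

private lemma eq_EXP (c₁ c₂ : PCh) {N : ℕ} [NeZero N] (h₁ : c₁.r ∣ N) (h₂ : c₂.r ∣ N)
    (h : DirichletCharacter.changeLevel h₁ c₁.χ = DirichletCharacter.changeLevel h₂ c₂.χ) :
    c₁ = c₂ := by
  have e1 := DirichletCharacter.conductor_changeLevel c₁.χ h₁
  have e2 := DirichletCharacter.conductor_changeLevel c₂.χ h₂
  have p1 : c₁.χ.conductor = c₁.r := c₁.prim
  have p2 : c₂.χ.conductor = c₂.r := c₂.prim
  have hr : c₁.r = c₂.r := by rw [← p1, ← p2, ← e1, ← e2, h]
  obtain ⟨r, hr0, χ, hp⟩ := c₁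
  obtain ⟨r', hr0', χ', hp'⟩ := c₂
  simp only at hr
  subst hr
  have := DirichletCharacter.changeLevel_injective h₁ h
  simp only at this
  subst this
  rfl

private lemma pr_cl_EXP (c : PCh) {N : ℕ} [NeZero N] (h : c.r ∣ N) :
    pr_EXP (DirichletCharacter.changeLevel h c.χ) = c := by
  apply eq_EXP (N := N) _ _ (DirichletCharacter.conductor_dvd_level _) h
  exact DirichletCharacter.changeLevel_primitiveCharacter _

private lemma cl_pr_EXP {N : ℕ} [NeZero N] (χ ψ : DirichletCharacter ℂ N)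
    (h : pr_EXP χ = pr_EXP ψ) : χ = ψ := by
  have key : ∀ (c : PCh) (h₁ : c.r ∣ N) (h₂ : (pr_EXP ψ).r ∣ N), c = pr_EXP ψ →
      DirichletCharacter.changeLevel h₁ c.χ =
        DirichletCharacter.changeLevel h₂ (pr_EXP ψ).χ := by
    intro c h₁ h₂ hc
    subst hc
    rfl
  have h3 := key (pr_EXP χ) χ.conductor_dvd_level ψ.conductor_dvd_level h
  have h1 : DirichletCharacter.changeLevel χ.conductor_dvd_level (pr_EXP χ).χ = χ :=
    DirichletCharacter.changeLevel_primitiveCharacter χ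
  have h2 : DirichletCharacter.changeLevel ψ.conductor_dvd_level (pr_EXP ψ).χ = ψ :=
    DirichletCharacter.changeLevel_primitiveCharacter ψ
  rw [← h1, ← h2]
  exact h3

private lemma fin_EXP (Q : ℝ) : {c : PCh | (c.r : ℝ) ≤ Q}.Finite := by
  have hN : NeZero (⌊Q⌋₊.factorial) := ⟨Nat.factorial_ne_zero _⟩
  apply (Set.finite_range
    (fun χ : DirichletCharacter ℂ (⌊Q⌋₊.factorial) => pr_EXP χ)).subset
  intro c hc
  have hc' : c.r ≤ ⌊Q⌋₊ := Nat.le_floor hc
  have hd : c.r ∣ ⌊Q⌋₊.factorial := Nat.dvd_factorial (Nat.pos_of_ne_zero c.hr) hc'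
  exact ⟨DirichletCharacter.changeLevel hd c.χ, pr_cl_EXP c hd⟩

private lemma mem_EXP (Q : ℝ) (c : PCh) : c ∈ PS Q ↔ (c.r : ℝ) ≤ Q := by
  unfold PS
  rw [dif_pos (fin_EXP Q)]
  simp

private lemma sum_EXP (q : ℕ) [NeZero q] (g : PCh → ℂ) :
    ∑ c ∈ (PS q).filter (fun c => c.r ∣ q), g c =
      ∑ χ : DirichletCharacter ℂ q, g (pr_EXP χ) := by
  symm
  apply Finset.sum_bij (fun χ _ => pr_EXP χ)
  · intro χ _
    rw [Finset.mem_filter, mem_EXP]
    have hd : (pr_EXP χ).r ∣ q := χ.conductor_dvd_level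
    exact ⟨by exact_mod_cast Nat.le_of_dvd (Nat.pos_of_ne_zero (NeZero.ne q)) hd, hd⟩
  · intro χ _ ψ _ h
    exact cl_pr_EXP χ ψ h
  · intro c hc
    rw [Finset.mem_filter] at hc
    exact ⟨DirichletCharacter.changeLevel hc.2 c.χ, Finset.mem_univ _, pr_cl_EXP c hc.2⟩
  · intro χ _
    rfl

private lemma ev_EXP {q : ℕ} [NeZero q] (χ : DirichletCharacter ℂ q) {n : ℕ}
    (hn : n.Coprime q) : (pr_EXP χ).ev n = χ (n : ZMod q) := by
  have ha : IsCoprime (n : ℤ) (q : ℤ) := Nat.isCoprime_iff_coprime.mpr hn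
  have := DirichletCharacter.primitiveCharacter_apply_of_isCoprime χ ha
  rw [Int.cast_natCast, Int.cast_natCast] at this
  exact this

private lemma conj_EXP {q : ℕ} [NeZero q] (χ : DirichletCharacter ℂ q) {b : ZMod q}
    (hb : IsUnit b) : (starRingEnd ℂ) (χ b) = χ b⁻¹ := by
  have h1 : χ b⁻¹ * χ b = 1 := by
    rw [← map_mul, ZMod.inv_mul_of_unit b hb, map_one]
  have h2 : (starRingEnd ℂ) (χ b) * χ b = 1 := by
    obtain ⟨u, rfl⟩ := hb
    rw [mul_comm, Complex.mul_conj, Complex.normSq_eq_norm_sq,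
      DirichletCharacter.unit_norm_eq_one χ u]
    norm_num
  have h3 : χ b ≠ 0 := right_ne_zero_of_mul_eq_one h2
  exact mul_right_cancel₀ h3 (h2.trans h1.symm)

private lemma ex_add_nat_EXP (t : ℝ) (k : ℕ) : ex (t + k) = ex t := by
  unfold ex
  have : 2 * (Real.pi : ℂ) * ((t + k : ℝ) : ℂ) * Complex.I =
      2 * Real.pi * t * Complex.I + k * (2 * Real.pi * Complex.I) := by
    push_cast
    ring
  rw [this, Complex.exp_add, Complex.exp_nat_mul_two_pi_mul_I, mul_one]

theorem hExp : StExp := by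
  intro q n a hq hn ha
  have hNe : NeZero q := ⟨by omega⟩
  have hφ : (Nat.totient q : ℂ) ≠ 0 := by
    exact_mod_cast (Nat.totient_pos.2 (by omega)).ne'
  rw [sum_EXP q (fun c => ta c q * c.ev a * c.ev n)]
  have hua : IsUnit (a : ZMod q) := (ZMod.isUnit_iff_coprime a q).2 ha
  have hun : IsUnit (n : ZMod q) := (ZMod.isUnit_iff_coprime n q).2 hn
  -- the sum over the characters
  have h1 : ∀ χ : DirichletCharacter ℂ q,
      ta (pr_EXP χ) q * (pr_EXP χ).ev a * (pr_EXP χ).ev n =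
      ∑ b ∈ (range q).filter (fun b => Nat.Coprime b q),
        ex ((b : ℝ) / q) * (χ ((b : ZMod q))⁻¹ * χ ((a : ZMod q) * n)) := by
    intro χ
    rw [ev_EXP χ ha, ev_EXP χ hn]
    unfold ta
    rw [Finset.sum_mul, Finset.sum_mul]
    apply Finset.sum_congr rfl
    intro b hb
    rw [Finset.mem_filter] at hb
    rw [ev_EXP χ hb.2, conj_EXP χ ((ZMod.isUnit_iff_coprime b q).2 hb.2), map_mul]
    ring
  rw [Finset.sum_congr rfl (fun χ _ => h1 χ), Finset.sum_comm]
  have h2 : ∀ b ∈ (range q).filter (fun b => Nat.Coprime b q),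
      ∑ χ : DirichletCharacter ℂ q,
        ex ((b : ℝ) / q) * (χ ((b : ZMod q))⁻¹ * χ ((a : ZMod q) * n)) =
      if b = (n * a) % q then ex ((b : ℝ) / q) * (Nat.totient q : ℂ) else 0 := by
    intro b hb
    rw [Finset.mem_filter, Finset.mem_range] at hb
    rw [← Finset.mul_sum, DirichletCharacter.sum_char_inv_mul_char_eq ℂ
      ((ZMod.isUnit_iff_coprime b q).2 hb.2)]
    have h3 : ((b : ZMod q) = (a : ZMod q) * n) ↔ b = (n * a) % q := by
      rw [mul_comm (a : ZMod q)]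
      rw [← Nat.cast_mul, ZMod.natCast_eq_natCast_iff']
      rw [Nat.mod_eq_of_lt hb.1]
    by_cases hc : b = (n * a) % q
    · rw [if_pos hc, if_pos (h3.2 hc)]
    · rw [if_neg hc, if_neg (fun h => hc (h3.1 h)), mul_zero]
  rw [Finset.sum_congr rfl h2]
  have hmem : (n * a) % q ∈ (range q).filter (fun b => Nat.Coprime b q) := by
    rw [Finset.mem_filter, Finset.mem_range]
    refine ⟨Nat.mod_lt _ (by omega), ?_⟩
    have : Nat.Coprime (n * a) q := Nat.Coprime.mul_left hn ha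
    unfold Nat.Coprime at this ⊢
    rw [← Nat.mod_add_div (n * a) q] at this
    rwa [Nat.gcd_add_mul_left_left] at this
  rw [Finset.sum_ite_eq_of_mem' _ _ _ hmem]
  have h4 : ((n : ℝ) * a / q) = (((n * a) % q : ℕ) : ℝ) / q + (((n * a) / q : ℕ) : ℝ) := by
    have hq0 : (q : ℝ) ≠ 0 := by exact_mod_cast (by omega : q ≠ 0)
    have h5 : ((n * a : ℕ) : ℝ) = (((n * a) % q : ℕ) : ℝ) + (q : ℝ) * (((n * a) / q : ℕ) : ℝ) := by
      exact_mod_cast (Nat.mod_add_div (n * a) q).symm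
    rw [← Nat.cast_mul, h5]
    field_simp
  rw [h4, ex_add_nat_EXP]
  field_simp

end Pool.Agent.Helper89.MV
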