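import Pool.Agent.Helper23.MV.StL
import Pool.Agent.Helper15.AB.M_MT

/-!
# Project MV, module PHK: the sum of `μ²(k) k / φ(k)²`
-/

set_option autoImplicit false

namespace Pool.Agent.Helper89.MV

open Finset ArithmeticFunction
open Pool.Agent.Helper23.MV

private theorem term_PHK (k : ℕ) (hk : Squarefree k) :
    (k : ℝ) / (k.totient : ℝ) ^ 2 = ∏ p ∈ k.primeFactors, (p : ℝ) / ((p : ℝ) - 1) ^ 2 := by
  have hk0 : k ≠ 0 := hk.ne_zero
  have h1 := Nat.totient_mul_prod_primeFactors k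
  have h2 := Nat.prod_primeFactors_of_squarefree hk
  rw [h2] at h1
  have h3 : k.totient = ∏ p ∈ k.primeFactors, (p - 1) := by
    have h4 : k * k.totient = k * ∏ p ∈ k.primeFactors, (p - 1) := by rw [← h1, mul_comm]
    exact Nat.eq_of_mul_eq_mul_left (Nat.pos_of_ne_zero hk0) h4
  have h5 : (k : ℝ) = ∏ p ∈ k.primeFactors, (p : ℝ) := by
    conv_lhs => rw [← h2]
    push_cast
    rfl
  have h6 : (k.totient : ℝ) = ∏ p ∈ k.primeFactors, ((p : ℝ) - 1) := by
    rw [h3, Nat.cast_prod]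
    refine Finset.prod_congr rfl fun p hp => ?_
    rw [Nat.cast_sub (Nat.prime_of_mem_primeFactors hp).one_le, Nat.cast_one]
  rw [h6, ← Finset.prod_pow, Finset.prod_div_distrib, ← h5]

private theorem tel_PHK (N : ℕ) : ∑ p ∈ Icc 2 N, (1 : ℝ) / ((p : ℝ) * (p - 1)) ≤ 1 := by
  have key : ∀ M : ℕ, ∑ p ∈ Icc 2 (M + 1), (1 : ℝ) / ((p : ℝ) * (p - 1)) = 1 - 1 / ((M : ℝ) + 1) := by
    intro M
    induction M with
    | zero => simp
    | succ M ih =>
      rw [Finset.sum_Icc_succ_top (by omega), ih]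
      have h1 : ((M : ℝ) + 1) ≠ 0 := by positivity
      have h2 : ((M : ℝ) + 1 + 1) ≠ 0 := by positivity
      push_cast
      have h3 : ((M : ℝ) + 1 + 1 - 1) = M + 1 := by ring
      rw [h3]
      field_simp
      ring
  rcases Nat.eq_zero_or_pos N with rfl | hN
  · simp
  · obtain ⟨M, rfl⟩ : ∃ M, N = M + 1 := ⟨N - 1, by omega⟩
    rw [key]
    have : (0 : ℝ) ≤ 1 / ((M : ℝ) + 1) := by positivity
    linarith

private theorem sum_PHK (N : ℕ) :
    ∑ k ∈ (Icc 1 N).filter Squarefree, (k : ℝ) / (k.totient : ℝ) ^ 2 ≤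
      Real.exp (∑ p ∈ (Icc 1 N).filter Nat.Prime, (1 : ℝ) / p + 3) := by
  set P := (Icc 1 N).filter Nat.Prime with hP
  have hpos : ∀ p : ℕ, 0 ≤ (p : ℝ) / ((p : ℝ) - 1) ^ 2 := fun p => by positivity
  have h1 : ∑ k ∈ (Icc 1 N).filter Squarefree, (k : ℝ) / (k.totient : ℝ) ^ 2 =
      ∑ t ∈ ((Icc 1 N).filter Squarefree).image Nat.primeFactors,
        ∏ p ∈ t, (p : ℝ) / ((p : ℝ) - 1) ^ 2 := by
    rw [Finset.sum_image]
    · refine Finset.sum_congr rfl fun k hk => term_PHK k (Finset.mem_filter.1 hk).2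
    · intro a ha b hb hab
      have ha' := (Finset.mem_filter.1 ha).2
      have hb' := (Finset.mem_filter.1 hb).2
      rw [← Nat.prod_primeFactors_of_squarefree ha', ← Nat.prod_primeFactors_of_squarefree hb']
      exact congrArg (fun s : Finset ℕ => ∏ p ∈ s, p) hab
  have h2 : ∑ t ∈ ((Icc 1 N).filter Squarefree).image Nat.primeFactors,
        ∏ p ∈ t, (p : ℝ) / ((p : ℝ) - 1) ^ 2 ≤
      ∑ t ∈ P.powerset, ∏ p ∈ t, (p : ℝ) / ((p : ℝ) - 1) ^ 2 := by
    refine Finset.sum_le_sum_of_subset_of_nonneg ?_ fun t _ _ =>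
      Finset.prod_nonneg fun p _ => hpos p
    intro t ht
    obtain ⟨k, hk, rfl⟩ := Finset.mem_image.1 ht
    rw [Finset.mem_powerset]
    intro p hp
    have hk' := Finset.mem_Icc.1 (Finset.mem_filter.1 hk).1
    have hpp := Nat.prime_of_mem_primeFactors hp
    exact Finset.mem_filter.2 ⟨Finset.mem_Icc.2 ⟨hpp.one_le,
      (Nat.le_of_mem_primeFactors hp).trans hk'.2⟩, hpp⟩
  have h3 : ∑ t ∈ P.powerset, ∏ p ∈ t, (p : ℝ) / ((p : ℝ) - 1) ^ 2 =
      ∏ p ∈ P, (1 + (p : ℝ) / ((p : ℝ) - 1) ^ 2) := by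
    rw [Finset.prod_one_add]
  have h4 : ∏ p ∈ P, (1 + (p : ℝ) / ((p : ℝ) - 1) ^ 2) ≤
      Real.exp (∑ p ∈ P, (p : ℝ) / ((p : ℝ) - 1) ^ 2) := by
    rw [Real.exp_sum]
    refine Finset.prod_le_prod (fun p _ => by have := hpos p; linarith) fun p _ => ?_
    have := Real.add_one_le_exp ((p : ℝ) / ((p : ℝ) - 1) ^ 2)
    linarith
  have h5 : ∑ p ∈ P, (p : ℝ) / ((p : ℝ) - 1) ^ 2 ≤ ∑ p ∈ P, (1 : ℝ) / p + 3 := by
    have h6 : ∀ p ∈ P, (p : ℝ) / ((p : ℝ) - 1) ^ 2 ≤
        (1 : ℝ) / p + 3 * (1 / ((p : ℝ) * (p - 1))) := by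
      intro p hp
      have hp2 : (2 : ℝ) ≤ p := by exact_mod_cast (Finset.mem_filter.1 hp).2.two_le
      have hq : (0 : ℝ) < p - 1 := by linarith
      have hp0 : (0 : ℝ) < p := by linarith
      have h7 : (1 : ℝ) / p + 3 * (1 / ((p : ℝ) * (p - 1))) - (p : ℝ) / ((p : ℝ) - 1) ^ 2 =
          ((p : ℝ) - 2) / ((p : ℝ) * (p - 1) ^ 2) := by
        field_simp
        ring
      have h8 : 0 ≤ ((p : ℝ) - 2) / ((p : ℝ) * (p - 1) ^ 2) := by
        apply div_nonneg
        · linarith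
        · positivity
      linarith
    refine (Finset.sum_le_sum h6).trans ?_
    rw [Finset.sum_add_distrib, ← Finset.mul_sum]
    have h9 : ∑ p ∈ P, (1 : ℝ) / ((p : ℝ) * (p - 1)) ≤ 1 := by
      refine (Finset.sum_le_sum_of_subset_of_nonneg ?_ ?_).trans (tel_PHK N)
      · intro p hp
        have hp' := Finset.mem_filter.1 hp
        exact Finset.mem_Icc.2 ⟨hp'.2.two_le, (Finset.mem_Icc.1 hp'.1).2⟩
      · intro p hp _
        have hp2 : (2 : ℝ) ≤ p := by exact_mod_cast (Finset.mem_Icc.1 hp).1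
        have hq : (0 : ℝ) < p - 1 := by linarith
        positivity
    linarith
  rw [h1]
  exact h2.trans (h3.le.trans (h4.trans (Real.exp_le_exp.2 h5)))

theorem hPhk : StPhk := by
  obtain ⟨C, hC, hM⟩ := Pool.Agent.Helper15.AB.hMT
  refine ⟨2 * Real.exp (C + 3), ?_, ?_⟩
  · have : (1 : ℝ) ≤ Real.exp (C + 3) := Real.one_le_exp (by linarith)
    linarith
  · intro z hz
    have h3 : (3 : ℝ) ≤ max z 3 := le_max_right _ _
    have h1 : ∑ k ∈ (Icc 1 ⌊z⌋₊).filter Squarefree, (k : ℝ) / (k.totient : ℝ) ^ 2 ≤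
        ∑ k ∈ (Icc 1 ⌊max z 3⌋₊).filter Squarefree, (k : ℝ) / (k.totient : ℝ) ^ 2 := by
      refine Finset.sum_le_sum_of_subset_of_nonneg ?_ fun k _ _ => by positivity
      exact Finset.filter_subset_filter _ (Finset.Icc_subset_Icc le_rfl
        (Nat.floor_le_floor (le_max_left _ _)))
    have h2 := sum_PHK ⌊max z 3⌋₊
    have h4 := (abs_le.1 (hM (max z 3) h3)).2
    have hl3 : 0 < Real.log (max z 3) := Real.log_pos (by linarith)
    have h5 : Real.exp (∑ p ∈ (Icc 1 ⌊max z 3⌋₊).filter Nat.Prime, (1 : ℝ) / p + 3) ≤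
        Real.exp (C + 3) * Real.log (max z 3) := by
      have h6 : Real.exp (C + 3) * Real.log (max z 3) =
          Real.exp (C + 3 + Real.log (Real.log (max z 3))) := by
        rw [Real.exp_add (C + 3), Real.exp_log hl3]
      rw [h6, Real.exp_le_exp]
      linarith
    have h7 : Real.log (max z 3) ≤ 2 * Real.log z := by
      have h8 : max z 3 ≤ z ^ 2 := by
        refine max_le ?_ ?_ <;> nlinarith
      calc Real.log (max z 3) ≤ Real.log (z ^ 2) := Real.log_le_log (by linarith) h8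
        _ = 2 * Real.log z := by rw [Real.log_pow]; norm_num
    have h9 : 0 < Real.exp (C + 3) := Real.exp_pos _
    calc _ ≤ Real.exp (C + 3) * Real.log (max z 3) := h1.trans (h2.trans h5)
      _ ≤ Real.exp (C + 3) * (2 * Real.log z) := mul_le_mul_of_nonneg_left h7 h9.le
      _ = 2 * Real.exp (C + 3) * Real.log z := by ring

end Pool.Agent.Helper89.MV
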